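import Pool.Agent.J6H70.MO.Final

/-!
# MP_e8a6f8_nt: prime factors of `d + x ^ 2` for odd `x ≤ √d`

`Modd d` is the maximum of the number of distinct prime factors of `d + x ^ 2` over the odd `x`
with `1 ≤ x ≤ √d`, and `S` is the set of the 44 exceptional values of the problem.
-/

namespace Pool.Agent.Results.MP_e8a6f8_nt.SmallSplitPrimes

open Pool.Agent.J6H70.MO

theorem result :
    -- (1) the exceptional values are exceptional (the `if` direction of Q1)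
    (∀ d ∈ S, Modd d ≤ 2) ∧
    -- (2) Q1 holds for `d` when `-d` is a square modulo three small odd primes
    (∀ d : ℕ, d % 4 = 2 → ¬ Squarefree d →
      (∃ a b c : ℕ, a.Prime ∧ b.Prime ∧ c.Prime ∧ a ≠ 2 ∧ b ≠ 2 ∧ c ≠ 2 ∧ a ≠ b ∧ a ≠ c ∧ b ≠ c ∧
        (a * b * c ≤ 2000 ∨ (a * b * c) ^ 2 ≤ d) ∧
        (∃ r, a ∣ d + r ^ 2) ∧ (∃ r, b ∣ d + r ^ 2) ∧ (∃ r, c ∣ d + r ^ 2)) →
      (Modd d ≤ 2 ↔ d ∈ S)) ∧
    -- (3) Q1 holds for `d = e m ^ 2`, `m ≥ 3` odd, `e < 2000`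
    (∀ e m : ℕ, e % 4 = 2 → e < 2000 → Odd m → 3 ≤ m →
      (Modd (e * m ^ 2) ≤ 2 ↔ e * m ^ 2 ∈ S)) ∧
    -- (4) for every `e`, only finitely many `m` are exceptional, with an explicit bound
    (∀ e m : ℕ, e % 4 = 2 → 10 * (e + 1) ^ 9 ≤ m → 3 ≤ Modd (e * m ^ 2)) := by
  have key : ∀ d : ℕ, d ∈ S ∨ 3 ≤ Modd d → (Modd d ≤ 2 ↔ d ∈ S) := by
    intro d h
    constructor
    · intro h2
      rcases h with h | h
      · exact h
      · omega
    · exact fun h2 => Modd_le_two_of_mem h2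
  refine ⟨fun d hd => Modd_le_two_of_mem hd, ?_, ?_, fun e m he hm => three_le_of_large he hm⟩
  · rintro d hd4 hsq ⟨a, b, c, pa, pb, pc, ha, hb, hc, hab, hac, hbc, hsize, ra, rb, rc⟩
    apply key
    by_cases hd : (a * b * c) ^ 2 ≤ d
    · exact Or.inr (three_le_of_primes pa pb pc ha hb hc hab hac hbc ra rb rc hd)
    · have h2000 : a * b * c ≤ 2000 := hsize.resolve_right hd
      have hlt : d < (a * b * c) ^ 2 := not_le.1 hd
      have hle : (a * b * c) ^ 2 ≤ 2000 ^ 2 := Nat.pow_le_pow_left h2000 2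
      exact finite_range hd4 hsq (by omega)
  · intro e m he he2 hm hm3
    exact key _ (class_main he he2 hm hm3)

end Pool.Agent.Results.MP_e8a6f8_nt.SmallSplitPrimes
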